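import Pool.Agent.H27.HB.TG

/-!
# Row BQE of hbe_modules: divided differences
-/

set_option autoImplicit false

namespace Pool.Agent.H47.HB

open MeasureTheory Set Filter Topology Pool.Agent.H80.HS Pool.Agent.H93.HQ Pool.Agent.H27.HB

namespace BQE

/-- the divided difference of `s ↦ s ^ r / r` -/
noncomputable def dd (r s t : ℝ) : ℝ :=
  if s = t then s ^ (r - 1) else (s ^ r - t ^ r) / (r * (s - t))

theorem bq_eq (q s t : ℝ) : bq q s t = dd (q - 1) s t := by
  unfold bq dd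
  have h : q - 1 - 1 = q - 2 := by ring
  rw [h]

theorem cq_eq (q s t : ℝ) : cq q s t = dd q s t := rfl

theorem mv_lt {r s t : ℝ} (hr : 1 < r) (hst : s < t) :
    ∃ c, s < c ∧ c < t ∧ (t ^ r - s ^ r) / (r * (t - s)) = c ^ (r - 1) := by
  obtain ⟨c, hc, hceq⟩ := exists_hasDerivAt_eq_slope (fun x : ℝ => x ^ r)
    (fun x : ℝ => r * x ^ (r - 1)) hst
    (fun x _ => (Real.hasDerivAt_rpow_const (Or.inr hr.le)).continuousAt.continuousWithinAt)
    (fun x _ => Real.hasDerivAt_rpow_const (Or.inr hr.le))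
  refine ⟨c, hc.1, hc.2, ?_⟩
  have h1 : t - s ≠ 0 := by linarith
  have h2 : r ≠ 0 := by linarith
  change r * c ^ (r - 1) = (t ^ r - s ^ r) / (t - s) at hceq
  rw [eq_div_iff h1] at hceq
  rw [div_eq_iff (mul_ne_zero h2 h1), ← hceq]
  ring

theorem mv {r s t : ℝ} (hr : 1 < r) : ∃ c, min s t ≤ c ∧ c ≤ max s t ∧ dd r s t = c ^ (r - 1) := by
  rcases lt_trichotomy s t with h | h | h
  · obtain ⟨c, h1, h2, h3⟩ := mv_lt hr h
    refine ⟨c, (min_le_left _ _).trans h1.le, h2.le.trans (le_max_right _ _), ?_⟩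
    unfold dd
    rw [if_neg h.ne, ← h3]
    rw [← neg_sub (t ^ r), ← neg_sub t s, mul_neg, neg_div_neg_eq]
  · refine ⟨s, min_le_left _ _, le_max_left _ _, ?_⟩
    unfold dd
    rw [if_pos h]
  · obtain ⟨c, h1, h2, h3⟩ := mv_lt hr h
    refine ⟨c, (min_le_right _ _).trans h1.le, h2.le.trans (le_max_left _ _), ?_⟩
    unfold dd
    rw [if_neg h.ne', ← h3]

theorem dd_mul {r : ℝ} (hr : 1 < r) (s t : ℝ) : s ^ r - t ^ r = r * dd r s t * (s - t) := by
  unfold dd
  by_cases h : s = t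
  · rw [if_pos h, h]
    ring
  · rw [if_neg h]
    have h1 : s - t ≠ 0 := sub_ne_zero.2 h
    have h2 : r ≠ 0 := by linarith
    field_simp

theorem dd_bd {r s t : ℝ} (hr : 1 < r) (hs : 0 ≤ s) (ht : 0 ≤ t) :
    0 ≤ dd r s t ∧ dd r s t ≤ max s t ^ (r - 1) := by
  obtain ⟨c, h1, h2, h3⟩ := mv (s := s) (t := t) hr
  have hc : 0 ≤ c := (le_min hs ht).trans h1
  rw [h3]
  exact ⟨Real.rpow_nonneg hc _, Real.rpow_le_rpow hc h2 (by linarith)⟩

theorem dd_lim (r s t : ℕ → ℝ) (R L : ℝ) (hR : 1 < R) (hL : 0 < L)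
    (hr : Tendsto r atTop (𝓝 R)) (hs : Tendsto s atTop (𝓝 L)) (ht : Tendsto t atTop (𝓝 L)) :
    Tendsto (fun k => dd (r k) (s k) (t k)) atTop (𝓝 (L ^ (R - 1))) := by
  have h1 : ∀ k, ∃ c, min (s k) (t k) ≤ c ∧ c ≤ max (s k) (t k) ∧
      (1 < r k → dd (r k) (s k) (t k) = c ^ (r k - 1)) := by
    intro k
    by_cases h : 1 < r k
    · obtain ⟨c, h1, h2, h3⟩ := mv (s := s k) (t := t k) h
      exact ⟨c, h1, h2, fun _ => h3⟩
    · exact ⟨s k, min_le_left _ _, le_max_left _ _, fun h' => absurd h' h⟩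
  choose c hc1 hc2 hc3 using h1
  have hc : Tendsto c atTop (𝓝 L) := by
    refine tendsto_of_tendsto_of_tendsto_of_le_of_le ?_ ?_ hc1 hc2
    · have := hs.min ht
      rwa [min_self] at this
    · have := hs.max ht
      rwa [max_self] at this
  have h2 : Tendsto (fun k => c k ^ (r k - 1)) atTop (𝓝 (L ^ (R - 1))) :=
    hc.rpow (hr.sub_const 1) (Or.inl hL.ne')
  refine h2.congr' ?_
  filter_upwards [hr.eventually (lt_mem_nhds hR)] with k hk
  exact (hc3 k hk).symm

theorem dd_meas (r : ℝ) : Measurable (fun x : ℝ × ℝ => dd r x.1 x.2) := by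
  unfold dd
  refine Measurable.ite (measurableSet_eq_fun measurable_fst measurable_snd) ?_ ?_
  · exact measurable_fst.pow_const _
  · exact ((measurable_fst.pow_const _).sub (measurable_snd.pow_const _)).div
      ((measurable_fst.sub measurable_snd).const_mul _)

end BQE

/-- BQE: elementary properties of the divided differences. -/
theorem pf_BQE : T_BQE := by
  refine ⟨?_, ?_, ?_⟩
  · intro q s t hq hs ht
    have hq1 : 1 < q - 1 := by linarith
    have hq2 : 1 < q := by linarith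
    obtain ⟨h1, h2⟩ := BQE.dd_bd hq1 hs ht
    obtain ⟨h3, h4⟩ := BQE.dd_bd hq2 hs ht
    have h5 : q - 1 - 1 = q - 2 := by ring
    rw [h5] at h2
    rw [BQE.bq_eq, BQE.cq_eq]
    refine ⟨?_, BQE.dd_mul hq2 s t, h1, h2, h3, h4⟩
    rw [BQE.dd_mul hq1 s t]
    ring
  · intro q s t Q L hQ hL hq hs ht
    simp only [BQE.bq_eq, BQE.cq_eq]
    constructor
    · have h := BQE.dd_lim (fun k => q k - 1) s t (Q - 1) L (by linarith) hL (hq.sub_const 1) hs ht
      have h5 : Q - 1 - 1 = Q - 2 := by ring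
      rw [h5] at h
      exact h
    · exact BQE.dd_lim q s t Q L (by linarith) hL hq hs ht
  · intro q
    simp only [BQE.bq_eq, BQE.cq_eq]
    exact ⟨BQE.dd_meas _, BQE.dd_meas _⟩

end Pool.Agent.H47.HB
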