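import Pool.Agent.H27.HB.TC

/-!
# Rows QF, GRP, DRV of hbe_modules
-/

set_option autoImplicit false

namespace Pool.Agent.H47.HB

open MeasureTheory Set Filter Topology Pool.Agent.H80.HS Pool.Agent.H93.HQ Pool.Agent.H27.HB

namespace QF

variable {n : ℕ}

theorem sum_sq (a : H n) : ∑ j, ‖zc j a‖ ^ 2 = sq a := by
  unfold Pool.Agent.H93.HQ.sq
  rw [EuclideanSpace.real_norm_sq_eq, EuclideanSpace.real_norm_sq_eq, ← Finset.sum_add_distrib]
  refine Finset.sum_congr rfl fun j _ => ?_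
  rw [← Complex.normSq_eq_norm_sq, Complex.normSq_apply]
  unfold zc
  ring

theorem inn (a b : H n) : ∑ j, zc j b * starRingEnd ℂ (zc j a) =
    ⟨inner ℝ a.1 b.1 + inner ℝ a.2.1 b.2.1, inner ℝ a.1 b.2.1 - inner ℝ a.2.1 b.1⟩ := by
  apply Complex.ext
  · change _ = inner ℝ a.1 b.1 + inner ℝ a.2.1 b.2.1
    rw [Complex.re_sum, PiLp.inner_apply, PiLp.inner_apply, ← Finset.sum_add_distrib]
    refine Finset.sum_congr rfl fun j _ => ?_
    simp only [zc, Complex.mul_re, Complex.conj_re, Complex.conj_im, RCLike.inner_apply,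
      conj_trivial]
    ring
  · change _ = inner ℝ a.1 b.2.1 - inner ℝ a.2.1 b.1
    rw [Complex.im_sum, PiLp.inner_apply, PiLp.inner_apply, ← Finset.sum_sub_distrib]
    refine Finset.sum_congr rfl fun j _ => ?_
    simp only [zc, Complex.mul_im, Complex.conj_re, Complex.conj_im, RCLike.inner_apply,
      conj_trivial]
    ring

theorem sq_mul (a b : H n) : sq (mul a b) =
    sq a + sq b + 2 * (inner ℝ a.1 b.1 + inner ℝ a.2.1 b.2.1) := by
  unfold Pool.Agent.H93.HQ.sq mul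
  change ‖a.1 + b.1‖ ^ 2 + ‖a.2.1 + b.2.1‖ ^ 2 = _
  rw [norm_add_sq_real, norm_add_sq_real]
  ring

theorem cs (a b : H n) : (inner ℝ a.1 b.1 + inner ℝ a.2.1 b.2.1) ^ 2 +
    (inner ℝ a.1 b.2.1 - inner ℝ a.2.1 b.1) ^ 2 ≤ sq a * sq b := by
  have h1 : ‖∑ j, zc j b * starRingEnd ℂ (zc j a)‖ ≤ ∑ j, ‖zc j a‖ * ‖zc j b‖ := by
    refine (norm_sum_le _ _).trans (Finset.sum_le_sum fun j _ => ?_)
    rw [norm_mul, RCLike.norm_conj, mul_comm]
  have h2 : (∑ j, ‖zc j a‖ * ‖zc j b‖) ^ 2 ≤ sq a * sq b := by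
    rw [← sum_sq a, ← sum_sq b]
    exact Finset.sum_mul_sq_le_sq_mul_sq _ _ _
  have h3 := (pow_le_pow_left₀ (norm_nonneg _) h1 2).trans h2
  rw [inn, ← Complex.normSq_eq_norm_sq, Complex.normSq_apply] at h3
  nlinarith

theorem nu_mul (a x : H n) : nu (mul a x) =
    nu a + nu x - 1 + 2 * ∑ j, zc j x * starRingEnd ℂ (zc j a) := by
  rw [inn]
  unfold nu
  rw [sq_mul]
  apply Complex.ext
  · simp
    ring
  · simp [mul]
    ring

theorem nu_dil (r : ℝ) (y : H n) : nu (dil r y) = 1 + (r : ℂ) ^ 2 * (nu y - 1) := by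
  unfold nu
  rw [sq_dil, ← Complex.ofReal_pow]
  have h : (dil r y).2.2 = r ^ 2 * y.2.2 := rfl
  rw [h]
  generalize r ^ 2 = c
  apply Complex.ext
  · simp
  · simp

theorem ww_pos (x : H n) : 0 < ww x := by
  unfold ww
  have := sq_nonneg' x
  positivity

theorem nu_sq (x : H n) : ‖nu x‖ ^ 2 = ww x := by
  rw [← Complex.normSq_eq_norm_sq, Complex.normSq_apply]
  unfold nu ww
  ring

theorem nu_ne (x : H n) : nu x ≠ 0 := by
  intro h
  have h1 := nu_sq x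
  rw [h, norm_zero] at h1
  have := ww_pos x
  norm_num at h1
  linarith

theorem zz_sum (x : H n) : ∑ i, ‖zz i x‖ ^ 2 = 1 := by
  rw [Fintype.sum_option]
  have hn := nu_ne x
  have hnn : ‖nu x‖ ≠ 0 := norm_ne_zero_iff.2 hn
  have h1 : ‖zz none x‖ ^ 2 = ‖2 - nu x‖ ^ 2 / ww x := by
    have h2 : zz none x = (2 - nu x) / nu x := by
      unfold zz
      field_simp
    rw [h2, norm_div, div_pow, nu_sq]
  have h2 : ∑ j, ‖zz (some j) x‖ ^ 2 = 4 * sq x / ww x := by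
    rw [← sum_sq, Finset.mul_sum, Finset.sum_div]
    refine Finset.sum_congr rfl fun j _ => ?_
    change ‖2 * zc j x / nu x‖ ^ 2 = _
    rw [norm_div, div_pow, nu_sq, norm_mul, mul_pow]
    norm_num
  have h3 : ‖2 - nu x‖ ^ 2 = (1 - sq x) ^ 2 + x.2.2 ^ 2 := by
    rw [← Complex.normSq_eq_norm_sq, Complex.normSq_apply]
    unfold nu
    simp
    ring
  have hw := ww_pos x
  rw [h1, h2, h3, ← add_div, div_eq_one_iff_eq hw.ne']
  unfold ww
  ring

theorem main (x a : H n) (r : ℝ) (hr : 0 < r) :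
    nu (dil r (mul a x)) = r * nu x * (cA a r + ∑ i, cB a r i * zz i x) := by
  have hn := nu_ne x
  have hr' : (r : ℂ) ≠ 0 := by exact_mod_cast hr.ne'
  rw [nu_dil, nu_mul, Fintype.sum_option]
  have h1 : ∑ j, cB a r (some j) * zz (some j) x =
      2 * r / nu x * ∑ j, zc j x * starRingEnd ℂ (zc j a) := by
    rw [Finset.mul_sum]
    refine Finset.sum_congr rfl fun j _ => ?_
    change (r : ℂ) * starRingEnd ℂ (zc j a) * (2 * zc j x / nu x) = _
    ring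
  rw [h1]
  generalize (∑ j, zc j x * starRingEnd ℂ (zc j a)) = S
  change _ = r * nu x * ((((r⁻¹ : ℝ) : ℂ) + r + r * (nu a - 1)) / 2 +
    ((((r⁻¹ : ℝ) : ℂ) - r + r * (nu a - 1)) / 2 * (2 / nu x - 1) + 2 * r / nu x * S))
  rw [Complex.ofReal_inv]
  field_simp
  ring

theorem cAB (a : H n) (r : ℝ) (hr : 0 < r) : ‖cA a r‖ ^ 2 = 1 + ∑ i, ‖cB a r i‖ ^ 2 := by
  rw [Fintype.sum_option]
  have h1 : ∑ j, ‖cB a r (some j)‖ ^ 2 = r ^ 2 * sq a := by
    rw [← sum_sq, Finset.mul_sum]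
    refine Finset.sum_congr rfl fun j _ => ?_
    change ‖(r : ℂ) * starRingEnd ℂ (zc j a)‖ ^ 2 = _
    rw [norm_mul, RCLike.norm_conj, mul_pow, Complex.norm_real, Real.norm_eq_abs, sq_abs]
  rw [h1]
  change ‖(((r⁻¹ : ℝ) : ℂ) + r + r * (nu a - 1)) / 2‖ ^ 2 =
    1 + (‖(((r⁻¹ : ℝ) : ℂ) - r + r * (nu a - 1)) / 2‖ ^ 2 + r ^ 2 * sq a)
  rw [← Complex.normSq_eq_norm_sq, ← Complex.normSq_eq_norm_sq,
    Complex.normSq_apply, Complex.normSq_apply]
  unfold nu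
  simp
  field_simp
  ring

end QF

/-- QF: `ν` along the action. -/
theorem pf_QF : T_QF := by
  intro n x a r hr
  exact ⟨QF.main x a r hr, QF.cAB a r hr, QF.zz_sum x, QF.ww_pos x, QF.nu_sq x⟩

end Pool.Agent.H47.HB
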