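import Pool.Agent.H27.HB.TC
import Pool.Agent.H47.HB.QF

/-!
# Row DRV of hbe_modules: derivatives of the logarithm of the weight
-/

set_option autoImplicit false

namespace Pool.Agent.H47.HB

open MeasureTheory Set Filter Topology Pool.Agent.H80.HS Pool.Agent.H93.HQ Pool.Agent.H27.HB

namespace DRV

variable {n : ℕ}

theorem curve (z : ℝ → H n) (S T : ℝ → ℝ) (S' T' : ℝ) (s : ℝ)
    (hS : ∀ s, Pool.Agent.H93.HQ.sq (z s) = S s) (hT : ∀ s, (z s).2.2 = T s)
    (h1 : HasDerivAt S S' s) (h2 : HasDerivAt T T' s) :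
    HasDerivAt (fun s => Real.log (ww (z s)))
      ((2 * (1 + S s) * S' + 2 * T s * T') / ww (z s)) s := by
  have h3 : HasDerivAt (fun s => (1 + S s) ^ 2 + T s ^ 2)
      (2 * (1 + S s) * S' + 2 * T s * T') s := by
    have e1 : HasDerivAt (fun s => (1 + S s) ^ 2) (2 * (1 + S s) * S') s := by
      refine ((h1.const_add 1).pow 2).congr_deriv ?_
      simp
    have e2 : HasDerivAt (fun s => T s ^ 2) (2 * T s * T') s := by
      refine (h2.pow 2).congr_deriv ?_
      simp
    exact e1.add e2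
  have h4 : ∀ s, ww (z s) = (1 + S s) ^ 2 + T s ^ 2 := by
    intro s
    unfold ww
    rw [hS, hT]
  have h5 : (1 + S s) ^ 2 + T s ^ 2 ≠ 0 := by
    rw [← h4]
    exact (QF.ww_pos _).ne'
  have h6 := h3.log h5
  have h7 : (fun s => Real.log (ww (z s))) = fun s => Real.log ((1 + S s) ^ 2 + T s ^ 2) := by
    funext s
    rw [h4]
  rw [h7, h4]
  exact h6

theorem inv_nu (z : H n) : (1 : ℂ) / nu z =
    ⟨(1 + Pool.Agent.H93.HQ.sq z) / ww z, z.2.2 / ww z⟩ := by
  have hw := QF.ww_pos z
  rw [div_eq_iff (QF.nu_ne z)]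
  have h1 : ww z = (1 + Pool.Agent.H93.HQ.sq z) ^ 2 + z.2.2 ^ 2 := rfl
  unfold nu
  apply Complex.ext
  · simp only [Complex.mul_re, Complex.one_re]
    field_simp
    rw [h1]
    ring
  · simp only [Complex.mul_im, Complex.one_im]
    field_simp
    ring

theorem rz_nt (z : H n) : rz none true z = 2 * (1 + Pool.Agent.H93.HQ.sq z) / ww z - 1 := by
  have h1 : (zz none z : ℂ) = 2 * (1 / nu z) - 1 := by
    change 2 / nu z - 1 = _
    ring
  unfold rz
  rw [if_pos rfl, h1, inv_nu]
  simp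
  ring

theorem rz_nf (z : H n) : rz none false z = 2 * z.2.2 / ww z := by
  have h1 : (zz none z : ℂ) = 2 * (1 / nu z) - 1 := by
    change 2 / nu z - 1 = _
    ring
  unfold rz
  rw [if_neg (by decide), h1, inv_nu]
  simp
  ring

theorem rz_st (j : Fin n) (z : H n) : rz (some j) true z =
    2 * (z.1 j * (1 + Pool.Agent.H93.HQ.sq z) - z.2.1 j * z.2.2) / ww z := by
  have h1 : (zz (some j) z : ℂ) = 2 * (zc j z * (1 / nu z)) := by
    change 2 * zc j z / nu z = _
    ring
  unfold rz
  rw [if_pos rfl, h1, inv_nu]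
  simp [zc]
  ring

theorem rz_sf (j : Fin n) (z : H n) : rz (some j) false z =
    2 * (z.2.1 j * (1 + Pool.Agent.H93.HQ.sq z) + z.1 j * z.2.2) / ww z := by
  have h1 : (zz (some j) z : ℂ) = 2 * (zc j z * (1 / nu z)) := by
    change 2 * zc j z / nu z = _
    ring
  unfold rz
  rw [if_neg (by decide), h1, inv_nu]
  simp [zc]
  ring

theorem norm_single_add (j : Fin n) (s : ℝ) (v : V n) :
    ‖(EuclideanSpace.single j s : V n) + v‖ ^ 2 = s ^ 2 + 2 * (s * v j) + ‖v‖ ^ 2 := by
  rw [norm_add_sq_real, EuclideanSpace.inner_single_left, EuclideanSpace.norm_single]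
  simp

end DRV

open DRV

/-- DRV: derivatives of `log w` along the generators. -/
theorem pf_DRV : T_DRV := by
  intro n y s
  have hexp : HasDerivAt Real.exp (Real.exp s) s := Real.hasDerivAt_exp s
  refine ⟨?_, ?_, fun j => ⟨?_, ?_⟩⟩
  · have h1 := curve (fun s => dil (Real.exp s) y)
      (fun s => Real.exp s ^ 2 * Pool.Agent.H93.HQ.sq y) (fun s => Real.exp s ^ 2 * y.2.2)
      (2 * (Real.exp s ^ 2 * Pool.Agent.H93.HQ.sq y)) (2 * (Real.exp s ^ 2 * y.2.2)) s
      (fun s => sq_dil _ _) (fun s => rfl)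
      (by
        have := (hexp.pow 2).mul_const (Pool.Agent.H93.HQ.sq y)
        refine this.congr_deriv ?_
        rw [show (2 - 1 : ℕ) = 1 from rfl, pow_one]
        push_cast
        ring)
      (by
        have := (hexp.pow 2).mul_const y.2.2
        refine this.congr_deriv ?_
        rw [show (2 - 1 : ℕ) = 1 from rfl, pow_one]
        push_cast
        ring)
    have h2 := h1.sub ((hasDerivAt_id s).const_mul 2)
    refine h2.congr_deriv ?_
    have hw := (QF.ww_pos (dil (Real.exp s) y)).ne'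
    have hsq : Pool.Agent.H93.HQ.sq (dil (Real.exp s) y) =
        Real.exp s ^ 2 * Pool.Agent.H93.HQ.sq y := sq_dil _ _
    have hww : ww (dil (Real.exp s) y) = (1 + Real.exp s ^ 2 * Pool.Agent.H93.HQ.sq y) ^ 2 +
        (Real.exp s ^ 2 * y.2.2) ^ 2 := by
      unfold ww
      rw [hsq]
      rfl
    rw [rz_nt, hsq]
    rw [hww] at hw ⊢
    generalize Real.exp s ^ 2 * Pool.Agent.H93.HQ.sq y = p at hw ⊢
    generalize Real.exp s ^ 2 * y.2.2 = q at hw ⊢
    field_simp
    ring
  · have h1 := curve (fun s => mul ((0, 0, s) : H n) y) (fun _ => Pool.Agent.H93.HQ.sq y)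
      (fun s => s + y.2.2) 0 1 s
      (fun s => by
        unfold Pool.Agent.H93.HQ.sq mul
        change ‖(0 : V n) + y.1‖ ^ 2 + ‖(0 : V n) + y.2.1‖ ^ 2 = _
        rw [zero_add, zero_add])
      (fun s => by
        change s + y.2.2 + 2 * (inner ℝ (0 : V n) y.1 - inner ℝ (0 : V n) y.2.1) = _
        rw [inner_zero_left, inner_zero_left]
        ring)
      (hasDerivAt_const _ _) ((hasDerivAt_id s).add_const _)
    refine h1.congr_deriv ?_
    rw [rz_nf]
    have h2 : (mul ((0, 0, s) : H n) y).2.2 = s + y.2.2 := by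
      change s + y.2.2 + 2 * (inner ℝ (0 : V n) y.1 - inner ℝ (0 : V n) y.2.1) = _
      rw [inner_zero_left, inner_zero_left]
      ring
    rw [h2]
    ring
  · have hS : ∀ s : ℝ, Pool.Agent.H93.HQ.sq (mul ((EuclideanSpace.single j s, 0, 0) : H n) y) =
        s ^ 2 + 2 * (s * y.1 j) + ‖y.1‖ ^ 2 + ‖y.2.1‖ ^ 2 := by
      intro s
      unfold Pool.Agent.H93.HQ.sq mul
      change ‖(EuclideanSpace.single j s : V n) + y.1‖ ^ 2 + ‖(0 : V n) + y.2.1‖ ^ 2 = _
      rw [zero_add, norm_single_add]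
    have hT : ∀ s : ℝ, (mul ((EuclideanSpace.single j s, 0, 0) : H n) y).2.2 =
        y.2.2 - 2 * (s * y.2.1 j) := by
      intro s
      change (0 : ℝ) + y.2.2 + 2 * (inner ℝ (0 : V n) y.1 -
        inner ℝ (EuclideanSpace.single j s : V n) y.2.1) = _
      rw [inner_zero_left, EuclideanSpace.inner_single_left]
      simp
      ring
    have h1 := curve (fun s => mul ((EuclideanSpace.single j s, 0, 0) : H n) y)
      (fun s => s ^ 2 + 2 * (s * y.1 j) + ‖y.1‖ ^ 2 + ‖y.2.1‖ ^ 2)
      (fun s => y.2.2 - 2 * (s * y.2.1 j)) (2 * (s + y.1 j)) (-(2 * y.2.1 j)) s hS hT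
      (by
        have e1 := ((hasDerivAt_id s).pow 2).add
          (((hasDerivAt_id s).mul_const (y.1 j)).const_mul 2)
        have e2 := (e1.add_const (‖y.1‖ ^ 2)).add_const (‖y.2.1‖ ^ 2)
        refine e2.congr_deriv ?_
        simp
        ring)
      (by
        have e1 := (((hasDerivAt_id s).mul_const (y.2.1 j)).const_mul 2).const_sub y.2.2
        refine e1.congr_deriv ?_
        simp)
    refine h1.congr_deriv ?_
    have h2 : (mul ((EuclideanSpace.single j s, 0, 0) : H n) y).1 j = s + y.1 j := by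
      change ((EuclideanSpace.single j s : V n) + y.1) j = _
      simp
    have h3 : (mul ((EuclideanSpace.single j s, 0, 0) : H n) y).2.1 j = y.2.1 j := by
      change ((0 : V n) + y.2.1) j = _
      simp
    rw [rz_st, h2, h3, hS, hT]
    ring
  · have hS : ∀ s : ℝ, Pool.Agent.H93.HQ.sq (mul ((0, EuclideanSpace.single j s, 0) : H n) y) =
        ‖y.1‖ ^ 2 + (s ^ 2 + 2 * (s * y.2.1 j) + ‖y.2.1‖ ^ 2) := by
      intro s
      unfold Pool.Agent.H93.HQ.sq mul
      change ‖(0 : V n) + y.1‖ ^ 2 + ‖(EuclideanSpace.single j s : V n) + y.2.1‖ ^ 2 = _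
      rw [zero_add, norm_single_add]
    have hT : ∀ s : ℝ, (mul ((0, EuclideanSpace.single j s, 0) : H n) y).2.2 =
        y.2.2 + 2 * (s * y.1 j) := by
      intro s
      change (0 : ℝ) + y.2.2 + 2 * (inner ℝ (EuclideanSpace.single j s : V n) y.1 -
        inner ℝ (0 : V n) y.2.1) = _
      rw [inner_zero_left, EuclideanSpace.inner_single_left]
      simp
    have h1 := curve (fun s => mul ((0, EuclideanSpace.single j s, 0) : H n) y)
      (fun s => ‖y.1‖ ^ 2 + (s ^ 2 + 2 * (s * y.2.1 j) + ‖y.2.1‖ ^ 2))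
      (fun s => y.2.2 + 2 * (s * y.1 j)) (2 * (s + y.2.1 j)) (2 * y.1 j) s hS hT
      (by
        have e1 := ((hasDerivAt_id s).pow 2).add
          (((hasDerivAt_id s).mul_const (y.2.1 j)).const_mul 2)
        have e2 := (e1.add_const (‖y.2.1‖ ^ 2)).const_add (‖y.1‖ ^ 2)
        refine e2.congr_deriv ?_
        simp
        ring)
      (by
        have e1 := (((hasDerivAt_id s).mul_const (y.1 j)).const_mul 2).const_add y.2.2
        refine e1.congr_deriv ?_
        simp)
    refine h1.congr_deriv ?_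
    have h2 : (mul ((0, EuclideanSpace.single j s, 0) : H n) y).1 j = y.1 j := by
      change ((0 : V n) + y.1) j = _
      simp
    have h3 : (mul ((0, EuclideanSpace.single j s, 0) : H n) y).2.1 j = s + y.2.1 j := by
      change ((EuclideanSpace.single j s : V n) + y.2.1) j = _
      simp
    rw [rz_sf, h2, h3, hS, hT]
    ring

end Pool.Agent.H47.HB
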