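import Pool.Agent.H27.HB.TC
import Pool.Agent.H47.HB.QF

/-!
# Rows GRP, LGB of hbe_modules
-/

set_option autoImplicit false

namespace Pool.Agent.H47.HB

open MeasureTheory Set Filter Topology Pool.Agent.H80.HS Pool.Agent.H93.HQ Pool.Agent.H27.HB

namespace GRP

variable {n : ℕ}

theorem N_mul_le (a b : H n) : N (mul a b) ≤ N a + N b := by
  have hA := N_nonneg a
  have hB := N_nonneg b
  have hsa := sq_nonneg' a
  have hsb := sq_nonneg' b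
  obtain ⟨P, hP⟩ : ∃ P : ℝ, P = inner ℝ a.1 b.1 + inner ℝ a.2.1 b.2.1 := ⟨_, rfl⟩
  obtain ⟨R, hR⟩ : ∃ R : ℝ, R = inner ℝ a.2.1 b.1 - inner ℝ a.1 b.2.1 := ⟨_, rfl⟩
  have hcs : P ^ 2 + R ^ 2 ≤ Pool.Agent.H93.HQ.sq a * Pool.Agent.H93.HQ.sq b := by
    have h := QF.cs a b
    rw [← hP] at h
    have h2 : R ^ 2 = (inner ℝ a.1 b.2.1 - inner ℝ a.2.1 b.1) ^ 2 := by
      rw [hR]
      ring
    rw [h2]
    exact h
  have hz : ∀ z : H n, ‖(⟨Pool.Agent.H93.HQ.sq z, z.2.2⟩ : ℂ)‖ = N z ^ 2 := by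
    intro z
    rw [N_sq, N4, Complex.norm_eq_sqrt_sq_add_sq]
  have hPR : ‖(⟨P, R⟩ : ℂ)‖ ≤ N a * N b := by
    rw [Complex.norm_eq_sqrt_sq_add_sq]
    have h1 : Real.sqrt (P ^ 2 + R ^ 2) ≤
        Real.sqrt (Pool.Agent.H93.HQ.sq a * Pool.Agent.H93.HQ.sq b) := Real.sqrt_le_sqrt hcs
    rw [Real.sqrt_mul hsa] at h1
    exact h1.trans (mul_le_mul (mz_le_N a) (mz_le_N b) (Real.sqrt_nonneg _) hA)
  have h1 : (⟨Pool.Agent.H93.HQ.sq (mul a b), (mul a b).2.2⟩ : ℂ) =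
      ⟨Pool.Agent.H93.HQ.sq a, a.2.2⟩ + ⟨Pool.Agent.H93.HQ.sq b, b.2.2⟩ + 2 * ⟨P, R⟩ := by
    apply Complex.ext
    · rw [QF.sq_mul, ← hP]
      simp
    · simp [mul, hR]
  have h2 : N (mul a b) ^ 2 ≤ (N a + N b) ^ 2 := by
    rw [← hz, h1]
    refine (norm_add_le _ _).trans ?_
    have h3 := norm_add_le (⟨Pool.Agent.H93.HQ.sq a, a.2.2⟩ : ℂ) ⟨Pool.Agent.H93.HQ.sq b, b.2.2⟩
    rw [hz, hz] at h3
    have h4 : ‖(2 : ℂ) * ⟨P, R⟩‖ = 2 * ‖(⟨P, R⟩ : ℂ)‖ := by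
      rw [norm_mul]
      norm_num
    rw [h4]
    nlinarith
  exact (pow_le_pow_iff_left₀ (N_nonneg _) (by linarith) (by norm_num)).1 h2

end GRP

/-- GRP: rules for the group. -/
theorem pf_GRP : T_GRP := by
  intro n a b c r s
  refine ⟨?_, ?_, ?_, ?_, dil_dil r s a, GRP.N_mul_le a b, ?_⟩
  · unfold mul
    refine Prod.ext (add_assoc _ _ _) (Prod.ext (add_assoc _ _ _) ?_)
    change a.2.2 + b.2.2 + 2 * (inner ℝ a.2.1 b.1 - inner ℝ a.1 b.2.1) + c.2.2 +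
      2 * (inner ℝ (a.2.1 + b.2.1) c.1 - inner ℝ (a.1 + b.1) c.2.1) =
      a.2.2 + (b.2.2 + c.2.2 + 2 * (inner ℝ b.2.1 c.1 - inner ℝ b.1 c.2.1)) +
      2 * (inner ℝ a.2.1 (b.1 + c.1) - inner ℝ a.1 (b.2.1 + c.2.1))
    rw [inner_add_left, inner_add_left, inner_add_right, inner_add_right]
    ring
  · unfold mul
    refine Prod.ext (add_neg_cancel _) (Prod.ext (add_neg_cancel _) ?_)
    change a.2.2 + -a.2.2 + 2 * (inner ℝ a.2.1 (-a.1) - inner ℝ a.1 (-a.2.1)) = 0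
    rw [inner_neg_right, inner_neg_right, real_inner_comm a.1 a.2.1]
    ring
  · unfold mul
    refine Prod.ext (neg_add_cancel _) (Prod.ext (neg_add_cancel _) ?_)
    change -a.2.2 + a.2.2 + 2 * (inner ℝ (-a.2.1) a.1 - inner ℝ (-a.1) a.2.1) = 0
    rw [inner_neg_left, inner_neg_left, real_inner_comm a.1 a.2.1]
    ring
  · unfold mul dil
    refine Prod.ext (smul_add _ _ _) (Prod.ext (smul_add _ _ _) ?_)
    change r ^ 2 * (a.2.2 + b.2.2 + 2 * (inner ℝ a.2.1 b.1 - inner ℝ a.1 b.2.1)) =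
      r ^ 2 * a.2.2 + r ^ 2 * b.2.2 +
        2 * (inner ℝ (r • a.2.1) (r • b.1) - inner ℝ (r • a.1) (r • b.2.1))
    rw [real_inner_smul_left, real_inner_smul_left, real_inner_smul_right, real_inner_smul_right]
    ring
  · unfold N N4 Pool.Agent.H93.HQ.sq
    change Real.sqrt (Real.sqrt ((‖-a.1‖ ^ 2 + ‖-a.2.1‖ ^ 2) ^ 2 + (-a.2.2) ^ 2)) = _
    rw [norm_neg, norm_neg, neg_sq]

/-- LGB: bounds for the logarithm. -/
theorem pf_LGB (hQF : T_QF) : T_LGB := by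
  intro n x a r hr
  obtain ⟨h1, h2, h3, h4, h5⟩ := hQF n x a r hr
  have h5' := (hQF n (dil r (mul a x)) a r hr).2.2.2.2
  obtain ⟨c, hc⟩ : ∃ c : ℝ, c = ‖cA a r‖ := ⟨_, rfl⟩
  obtain ⟨b, hb⟩ : ∃ b : ℝ, b = Real.sqrt (∑ i, ‖cB a r i‖ ^ 2) := ⟨_, rfl⟩
  have hs0 : 0 ≤ ∑ i, ‖cB a r i‖ ^ 2 := Finset.sum_nonneg fun i _ => by positivity
  have hb0 : 0 ≤ b := by
    rw [hb]
    exact Real.sqrt_nonneg _
  have hb2 : b ^ 2 = ∑ i, ‖cB a r i‖ ^ 2 := by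
    rw [hb]
    exact Real.sq_sqrt hs0
  have hc0 : 0 ≤ c := by
    rw [hc]
    exact norm_nonneg _
  rw [← hc, ← hb2] at h2
  have hc1 : 1 ≤ c := by nlinarith
  have hbc : b ≤ c := by nlinarith
  rw [← hc]
  refine ⟨hc1, ?_⟩
  obtain ⟨S, hS⟩ : ∃ S : ℂ, S = ∑ i, cB a r i * zz i x := ⟨_, rfl⟩
  have hSb : ‖S‖ ≤ b := by
    have e1 : ‖S‖ ≤ ∑ i, ‖cB a r i‖ * ‖zz i x‖ := by
      rw [hS]
      refine (norm_sum_le _ _).trans (Finset.sum_le_sum fun i _ => ?_)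
      rw [norm_mul]
    have e2 : (∑ i, ‖cB a r i‖ * ‖zz i x‖) ^ 2 ≤ b ^ 2 * 1 := by
      rw [hb2, ← h3]
      exact Finset.sum_mul_sq_le_sq_mul_sq _ _ _
    rw [mul_one] at e2
    have e3 : 0 ≤ ∑ i, ‖cB a r i‖ * ‖zz i x‖ :=
      Finset.sum_nonneg fun i _ => by positivity
    exact e1.trans ((pow_le_pow_iff_left₀ e3 hb0 (by norm_num)).1 e2)
  have hF : ww (dil r (mul a x)) / (r ^ 2 * ww x) = ‖cA a r + S‖ ^ 2 := by
    rw [← h5', h1, ← hS, norm_mul, norm_mul, Complex.norm_real, Real.norm_eq_abs, abs_of_pos hr,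
      mul_pow, mul_pow, h5]
    field_simp
  rw [hF]
  have hup : ‖cA a r + S‖ ≤ 2 * c := by
    refine (norm_add_le _ _).trans ?_
    rw [← hc]
    linarith
  have hlo : 1 / (2 * c) ≤ ‖cA a r + S‖ := by
    have e1 : c - b ≤ ‖cA a r + S‖ := by
      have e2 := norm_sub_norm_le (cA a r) (-S)
      rw [norm_neg, sub_neg_eq_add, ← hc] at e2
      linarith
    refine le_trans ?_ e1
    rw [div_le_iff₀ (by linarith)]
    nlinarith
  have hpos : 0 < ‖cA a r + S‖ := lt_of_lt_of_le (by positivity) hlo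
  rw [Real.log_pow, abs_mul]
  push_cast
  rw [abs_of_pos (by norm_num : (0 : ℝ) < 2)]
  refine mul_le_mul_of_nonneg_left ?_ (by norm_num)
  rw [abs_le]
  constructor
  · have e1 := Real.log_le_log (by positivity) hlo
    rw [one_div, Real.log_inv] at e1
    exact e1
  · exact Real.log_le_log hpos hup

end Pool.Agent.H47.HB
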