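import Pool.Agent.H27.HB.TA

/-!
# Row MNO of hbe_modules: strong monotonicity
-/

set_option autoImplicit false

namespace Pool.Agent.H47.HB

open MeasureTheory Set Filter Topology Pool.Agent.H80.HS Pool.Agent.H93.HQ Pool.Agent.H27.HB

namespace MNO

theorem tang {p s t : ℝ} (hp : 1 < p) (hp2 : p ≤ 2) (ht : 0 < t) (hts : t ≤ s) :
    (p - 1) * (s + t) ^ (p - 2) * (s - t) ≤ s ^ (p - 2) * s - t ^ (p - 2) * t := by
  have hs : 0 < s := lt_of_lt_of_le ht hts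
  have h1 : s ^ (p - 2) * s = s ^ (p - 1) := by
    rw [← Real.rpow_add_one hs.ne']
    congr 1
    ring
  have h2 : t ^ (p - 2) * t = t ^ (p - 1) := by
    rw [← Real.rpow_add_one ht.ne']
    congr 1
    ring
  have h3 : (1 + (t / s - 1)) ^ (p - 1) ≤ 1 + (p - 1) * (t / s - 1) :=
    rpow_one_add_le_one_add_mul_self (by
      have : 0 ≤ t / s := by positivity
      linarith) (by linarith) (by linarith)
  have h4 : (1 + (t / s - 1)) = t / s := by ring
  rw [h4, Real.div_rpow ht.le hs.le] at h3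
  have h5 : 0 < s ^ (p - 1) := Real.rpow_pos_of_pos hs _
  have h6 : t ^ (p - 1) ≤ s ^ (p - 1) + (p - 1) * s ^ (p - 2) * (t - s) := by
    rw [div_le_iff₀ h5] at h3
    refine h3.trans (le_of_eq ?_)
    rw [← h1]
    field_simp
  have h7 : (s + t) ^ (p - 2) ≤ s ^ (p - 2) :=
    Real.rpow_le_rpow_of_nonpos hs (by linarith) (by linarith)
  have h8 : (p - 1) * (s + t) ^ (p - 2) * (s - t) ≤ (p - 1) * s ^ (p - 2) * (s - t) :=
    mul_le_mul_of_nonneg_right (mul_le_mul_of_nonneg_left h7 (by linarith)) (by linarith)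
  rw [h1, h2]
  linarith

theorem scal {p s t x : ℝ} (hp : 1 < p) (hp2 : p ≤ 2) (hs : 0 < s) (ht : 0 < t)
    (hx1 : -(s * t) ≤ x) (hx2 : x ≤ s * t) :
    (p - 1) * (s + t) ^ (p - 2) * (s ^ 2 - 2 * x + t ^ 2) ≤
      s ^ (p - 2) * s ^ 2 + t ^ (p - 2) * t ^ 2 - (s ^ (p - 2) + t ^ (p - 2)) * x := by
  obtain ⟨W, hW⟩ : ∃ W : ℝ, W = (s + t) ^ (p - 2) := ⟨_, rfl⟩
  obtain ⟨S, hS⟩ : ∃ S : ℝ, S = s ^ (p - 2) := ⟨_, rfl⟩
  obtain ⟨T, hT⟩ : ∃ T : ℝ, T = t ^ (p - 2) := ⟨_, rfl⟩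
  have hWS : W ≤ S := by
    rw [hW, hS]
    exact Real.rpow_le_rpow_of_nonpos hs (by linarith) (by linarith)
  have hWT : W ≤ T := by
    rw [hW, hT]
    exact Real.rpow_le_rpow_of_nonpos ht (by linarith) (by linarith)
  have hW0 : 0 ≤ W := by
    rw [hW]
    exact Real.rpow_nonneg (by linarith) _
  -- the two ends
  have hend1 : 0 ≤ (S * s + T * t) * (s + t) - (p - 1) * W * (s + t) ^ 2 := by
    have h1 : W * (s + t) ≤ S * s + T * t := by nlinarith
    have h2 : W * (s + t) * (s + t) ≤ (S * s + T * t) * (s + t) :=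
      mul_le_mul_of_nonneg_right h1 (by linarith)
    have h3 : (p - 1) * (W * (s + t) ^ 2) ≤ 1 * (W * (s + t) ^ 2) :=
      mul_le_mul_of_nonneg_right (by linarith) (by positivity)
    nlinarith
  have hend2 : 0 ≤ (S * s - T * t) * (s - t) - (p - 1) * W * (s - t) ^ 2 := by
    rcases le_total t s with h | h
    · have h1 := tang hp hp2 ht h
      rw [← hW, ← hS, ← hT] at h1
      have h2 := mul_le_mul_of_nonneg_right h1 (show 0 ≤ s - t by linarith)
      nlinarith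
    · have h1 := tang hp hp2 hs h
      rw [add_comm t s, ← hW, ← hS, ← hT] at h1
      have h2 := mul_le_mul_of_nonneg_right h1 (show 0 ≤ t - s by linarith)
      nlinarith
  rw [← hW, ← hS, ← hT]
  have hst : 0 < s * t := by positivity
  -- affine in `x`
  have key : (2 * (s * t)) * (S * s ^ 2 + T * t ^ 2 - (S + T) * x -
      (p - 1) * W * (s ^ 2 - 2 * x + t ^ 2)) =
      (s * t + x) * ((S * s - T * t) * (s - t) - (p - 1) * W * (s - t) ^ 2) +
      (s * t - x) * ((S * s + T * t) * (s + t) - (p - 1) * W * (s + t) ^ 2) := by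
    ring
  have h1 : 0 ≤ (2 * (s * t)) * (S * s ^ 2 + T * t ^ 2 - (S + T) * x -
      (p - 1) * W * (s ^ 2 - 2 * x + t ^ 2)) := by
    rw [key]
    exact add_nonneg (mul_nonneg (by linarith) hend2) (mul_nonneg (by linarith) hend1)
  have h2 : 0 ≤ S * s ^ 2 + T * t ^ 2 - (S + T) * x - (p - 1) * W * (s ^ 2 - 2 * x + t ^ 2) := by
    by_contra h
    push Not at h
    have h3 := mul_neg_of_pos_of_neg (show 0 < 2 * (s * t) by positivity) h
    linarith
  linarith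

end MNO

/-- MNO: strong monotonicity for `1 < p ≤ 2`. -/
theorem pf_MNO : T_MNO := by
  intro n p hp hp2 a b
  have hr : inner ℝ (‖a‖ ^ (p - 2) • a - ‖b‖ ^ (p - 2) • b) (a - b) =
      ‖a‖ ^ (p - 2) * ‖a‖ ^ 2 + ‖b‖ ^ (p - 2) * ‖b‖ ^ 2 -
        (‖a‖ ^ (p - 2) + ‖b‖ ^ (p - 2)) * inner ℝ a b := by
    rw [inner_sub_left, inner_sub_right, inner_sub_right, real_inner_smul_left,
      real_inner_smul_left, real_inner_smul_left, real_inner_smul_left,
      real_inner_self_eq_norm_sq, real_inner_self_eq_norm_sq, real_inner_comm a b]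
    ring
  have hl : ‖a - b‖ ^ 2 = ‖a‖ ^ 2 - 2 * inner ℝ a b + ‖b‖ ^ 2 := norm_sub_sq_real a b
  rw [hr, hl]
  by_cases ha : a = 0
  · subst ha
    rw [norm_zero, inner_zero_left, zero_add]
    have h1 : 0 ≤ ‖b‖ ^ (p - 2) * ‖b‖ ^ 2 := by positivity
    have h2 : (p - 1) * (‖b‖ ^ (p - 2) * ‖b‖ ^ 2) ≤ 1 * (‖b‖ ^ (p - 2) * ‖b‖ ^ 2) :=
      mul_le_mul_of_nonneg_right (by linarith) h1
    have h3 : (0 : ℝ) ^ 2 = 0 := by norm_num
    rw [h3]
    linarith
  by_cases hb : b = 0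
  · subst hb
    rw [norm_zero, inner_zero_right, add_zero]
    have h1 : 0 ≤ ‖a‖ ^ (p - 2) * ‖a‖ ^ 2 := by positivity
    have h2 : (p - 1) * (‖a‖ ^ (p - 2) * ‖a‖ ^ 2) ≤ 1 * (‖a‖ ^ (p - 2) * ‖a‖ ^ 2) :=
      mul_le_mul_of_nonneg_right (by linarith) h1
    have h3 : (0 : ℝ) ^ 2 = 0 := by norm_num
    rw [h3]
    linarith
  have h1 := abs_le.1 (abs_real_inner_le_norm a b)
  exact MNO.scal hp hp2 (norm_pos_iff.2 ha) (norm_pos_iff.2 hb) h1.1 h1.2

end Pool.Agent.H47.HB
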